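import Pool.Agent.helper32.Frac.Main

/-! Weak solutions of the vectorial fractional p-Laplace system are continuous. -/

namespace Pool.Agent.Results.MP_3f21bd_an.Continuity

open MeasureTheory Pool.Agent.helper32.Frac

/-- Every weak solution of `(-Δ_p)^s u = 0` in an open set `Ω ⊆ ℝⁿ` with values in `ℝᵐ` has a
representative that is continuous in `Ω`, for all `n ≥ 1`, `m`, `1 < p < ∞`, `0 < s < 1`. -/
theorem result (n m : ℕ) (hn : 1 ≤ n) (p s : ℝ) (hp : 1 < p) (hs : 0 < s) (hs1 : s < 1)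
    (Ω : Set (EuclideanSpace ℝ (Fin n))) (hΩ : IsOpen Ω)
    (u : EuclideanSpace ℝ (Fin n) → EuclideanSpace ℝ (Fin m))
    (hu : IsWeakSolution n m p s Ω u) :
    ∃ w : EuclideanSpace ℝ (Fin n) → EuclideanSpace ℝ (Fin m),
      ContinuousOn w Ω ∧ ∀ᵐ x ∂volume.restrict Ω, u x = w x := by
  have : NeZero n := ⟨by omega⟩
  obtain ⟨w, hw, he⟩ := main hp hs hs1 hΩ hu
  refine ⟨w, hw, ?_⟩
  rw [ae_restrict_iff' hΩ.measurableSet]
  exact he

end Pool.Agent.Results.MP_3f21bd_an.Continuity
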